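import Pool.Agent.Y282.WD.Stm

set_option autoImplicit false

/-! `f₀` is large on large squares (job WD-LOOP). -/

namespace Pool.Agent.Y804.WD

open Pool.Agent.Y282.WD Pool.Agent.H384R2.Fatou Pool.Agent.H723R2.LSW
open Filter Topology Metric Set

theorem f₀_right (m : ℕ) (y : ℝ) :
    f₀ (((2 * m + 1 / 2 : ℝ) : ℂ) + y * Complex.I) =
      ((2 * m + 1 / 2 + 1 / 4 - y * Real.sinh (Real.pi * y) / 2 +
        Real.cosh (Real.pi * y) / (2 * Real.pi) : ℝ) : ℂ) +
      ((y + Real.sinh (Real.pi * y) * ((2 * m + 1 / 2 + 1 / 2) / 2 +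
        Real.cosh (Real.pi * y) / Real.pi) : ℝ) : ℂ) * Complex.I := by
  have hpi : (Real.pi : ℂ) ≠ 0 := by exact_mod_cast Real.pi_ne_zero
  have e : (Real.pi : ℂ) * (((2 * m + 1 / 2 : ℝ) : ℂ) + y * Complex.I) =
      (((Real.pi * y : ℝ) : ℂ) * Complex.I + (Real.pi : ℂ) / 2) + m * (2 * Real.pi) := by
    push_cast; ring
  have hc : Complex.cos ((Real.pi : ℂ) * (((2 * m + 1 / 2 : ℝ) : ℂ) + y * Complex.I)) =
      -((Real.sinh (Real.pi * y) : ℝ) : ℂ) * Complex.I := by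
    rw [e, Complex.cos_add_nat_mul_two_pi, Complex.cos_add_pi_div_two, Complex.sin_mul_I,
      Complex.ofReal_sinh]
    ring
  have hs : Complex.sin ((Real.pi : ℂ) * (((2 * m + 1 / 2 : ℝ) : ℂ) + y * Complex.I)) =
      ((Real.cosh (Real.pi * y) : ℝ) : ℂ) := by
    rw [e, Complex.sin_add_nat_mul_two_pi, Complex.sin_add_pi_div_two, Complex.cos_mul_I,
      Complex.ofReal_cosh]
  rw [f₀, hc, hs]
  have hI : Complex.I ^ 2 = -1 := Complex.I_sq
  push_cast
  field_simp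
  ring_nf
  rw [hI]
  ring

theorem f₀_left (m : ℕ) (y : ℝ) :
    f₀ (((-(2 * m + 1 / 2) : ℝ) : ℂ) + y * Complex.I) =
      ((-(2 * m + 1 / 2) + 1 / 4 + y * Real.sinh (Real.pi * y) / 2 -
        Real.cosh (Real.pi * y) / (2 * Real.pi) : ℝ) : ℂ) +
      ((y + Real.sinh (Real.pi * y) * ((2 * m + 1 / 2 - 1 / 2) / 2 +
        Real.cosh (Real.pi * y) / Real.pi) : ℝ) : ℂ) * Complex.I := by
  have hpi : (Real.pi : ℂ) ≠ 0 := by exact_mod_cast Real.pi_ne_zero
  have e : (Real.pi : ℂ) * (((-(2 * m + 1 / 2) : ℝ) : ℂ) + y * Complex.I) =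
      (((Real.pi * y : ℝ) : ℂ) * Complex.I - (Real.pi : ℂ) / 2) - m * (2 * Real.pi) := by
    push_cast; ring
  have hc : Complex.cos ((Real.pi : ℂ) * (((-(2 * m + 1 / 2) : ℝ) : ℂ) + y * Complex.I)) =
      ((Real.sinh (Real.pi * y) : ℝ) : ℂ) * Complex.I := by
    rw [e, Complex.cos_sub_nat_mul_two_pi, Complex.cos_sub_pi_div_two, Complex.sin_mul_I,
      Complex.ofReal_sinh]
  have hs : Complex.sin ((Real.pi : ℂ) * (((-(2 * m + 1 / 2) : ℝ) : ℂ) + y * Complex.I)) =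
      -((Real.cosh (Real.pi * y) : ℝ) : ℂ) := by
    rw [e, Complex.sin_sub_nat_mul_two_pi, Complex.sin_sub_pi_div_two, Complex.cos_mul_I,
      Complex.ofReal_cosh]
  rw [f₀, hc, hs]
  have hI : Complex.I ^ 2 = -1 := Complex.I_sq
  push_cast
  field_simp
  ring_nf
  rw [hI]
  ring

theorem norm_ge_re (u v : ℝ) : |u| ≤ ‖(u : ℂ) + v * Complex.I‖ := by
  have := Complex.abs_re_le_norm ((u : ℂ) + v * Complex.I)
  simpa using this

theorem norm_ge_im (u v : ℝ) : |v| ≤ ‖(u : ℂ) + v * Complex.I‖ := by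
  have := Complex.abs_im_le_norm ((u : ℂ) + v * Complex.I)
  simpa using this

/-- sign and size of the hyperbolic sine -/
theorem sinh_facts (y : ℝ) : 0 ≤ y * Real.sinh (Real.pi * y) ∧
    3 * |y| ≤ |Real.sinh (Real.pi * y)| ∧
    |y| ≤ |y + Real.sinh (Real.pi * y)| ∧
    ∀ c : ℝ, 0 ≤ c → |Real.sinh (Real.pi * y)| * c ≤ |y + Real.sinh (Real.pi * y) * c| := by
  have hpi := Real.pi_gt_three
  rcases le_total 0 y with hy | hy
  · have h1 : 0 ≤ Real.pi * y := by positivity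
    have h2 : Real.pi * y ≤ Real.sinh (Real.pi * y) := Real.self_le_sinh_iff.2 h1
    have h3 : 0 ≤ Real.sinh (Real.pi * y) := h1.trans h2
    refine ⟨mul_nonneg hy h3, ?_, ?_, ?_⟩
    · rw [abs_of_nonneg hy, abs_of_nonneg h3]; nlinarith
    · rw [abs_of_nonneg hy, abs_of_nonneg (by positivity)]; linarith
    · intro c hc
      rw [abs_of_nonneg h3, abs_of_nonneg (by positivity)]; linarith
  · have h1 : Real.pi * y ≤ 0 := by nlinarith
    have h2 : Real.sinh (Real.pi * y) ≤ Real.pi * y := Real.sinh_le_self_iff.2 h1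
    have h3 : Real.sinh (Real.pi * y) ≤ 0 := h2.trans h1
    refine ⟨mul_nonneg_of_nonpos_of_nonpos hy h3, ?_, ?_, ?_⟩
    · rw [abs_of_nonpos hy, abs_of_nonpos h3]; nlinarith
    · rw [abs_of_nonpos hy, abs_of_nonpos (by linarith)]; linarith
    · intro c hc
      have h4 : Real.sinh (Real.pi * y) * c ≤ 0 := mul_nonpos_of_nonpos_of_nonneg h3 hc
      rw [abs_of_nonpos h3, abs_of_nonpos (by linarith)]; linarith

theorem vert_bound (m : ℕ) (y : ℝ) :
    (m : ℝ) / 10 ≤ ‖f₀ (((2 * m + 1 / 2 : ℝ) : ℂ) + y * Complex.I)‖ ∧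
    (m : ℝ) / 10 ≤ ‖f₀ (((-(2 * m + 1 / 2) : ℝ) : ℂ) + y * Complex.I)‖ + 1 := by
  obtain ⟨h0, h1, _, h3⟩ := sinh_facts y
  have hpi := Real.pi_gt_three
  have hm : (0 : ℝ) ≤ m := Nat.cast_nonneg m
  have hC0 : 0 < Real.cosh (Real.pi * y) := Real.cosh_pos _
  have hCp : 0 ≤ Real.cosh (Real.pi * y) / Real.pi := by positivity
  have hC2 : 0 ≤ Real.cosh (Real.pi * y) / (2 * Real.pi) := by positivity
  rw [f₀_right, f₀_left]
  set S := Real.sinh (Real.pi * y) with hS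
  set Ch := Real.cosh (Real.pi * y) with hCh
  rcases le_total (1 / 10) |S| with h4 | h4
  · constructor
    · refine le_trans ?_ (norm_ge_im _ _)
      refine le_trans ?_ (h3 _ (by positivity))
      nlinarith
    · have h5 : (m : ℝ) / 10 ≤ |y + S * ((2 * m + 1 / 2 - 1 / 2) / 2 + Ch / Real.pi)| := by
        refine le_trans ?_ (h3 _ (by ring_nf; positivity))
        nlinarith
      have h6 := norm_ge_im (-(2 * m + 1 / 2) + 1 / 4 + y * S / 2 - Ch / (2 * Real.pi))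
        (y + S * ((2 * m + 1 / 2 - 1 / 2) / 2 + Ch / Real.pi))
      linarith
  · have h5 : y * S ≤ 1 / 300 := by
      have h6 : y * S = |y| * |S| := by rw [← abs_mul, abs_of_nonneg h0]
      rw [h6]
      have h7 : |y| ≤ 1 / 30 := by linarith
      calc |y| * |S| ≤ (1 / 30) * (1 / 10) := mul_le_mul h7 h4 (abs_nonneg _) (by norm_num)
        _ = 1 / 300 := by norm_num
    constructor
    · refine le_trans ?_ (norm_ge_re _ _)
      refine le_trans ?_ (le_abs_self _)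
      linarith
    · have h6 := norm_ge_re (-(2 * m + 1 / 2) + 1 / 4 + y * S / 2 - Ch / (2 * Real.pi))
        (y + S * ((2 * m + 1 / 2 - 1 / 2) / 2 + Ch / Real.pi))
      have h7 := neg_le_abs (-(2 * m + 1 / 2) + 1 / 4 + y * S / 2 - Ch / (2 * Real.pi))
      linarith

theorem cos_bounds (w : ℂ) : (Real.exp |w.im| - 1) / 2 ≤ ‖Complex.cos w‖ ∧
    ‖Complex.cos w‖ ≤ (Real.exp |w.im| + 1) / 2 ∧ (Real.exp |w.im| - 1) / 2 ≤ ‖Complex.sin w‖ ∧
    ‖Complex.sin w‖ ≤ (Real.exp |w.im| + 1) / 2 := by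
  have e1 : ‖Complex.exp (w * Complex.I)‖ = Real.exp (-w.im) := by
    rw [Complex.norm_exp]; simp
  have e2 : ‖Complex.exp (-w * Complex.I)‖ = Real.exp w.im := by
    rw [Complex.norm_exp]; simp
  have hc : ‖Complex.cos w‖ = ‖Complex.exp (w * Complex.I) + Complex.exp (-w * Complex.I)‖ / 2 := by
    rw [Complex.cos, norm_div]; norm_num
  have hs : ‖Complex.sin w‖ = ‖Complex.exp (-w * Complex.I) - Complex.exp (w * Complex.I)‖ / 2 := by
    rw [Complex.sin, norm_div, norm_mul]; norm_num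
  have g1 := norm_add_le (Complex.exp (w * Complex.I)) (Complex.exp (-w * Complex.I))
  have g2 := norm_sub_le (Complex.exp (-w * Complex.I)) (Complex.exp (w * Complex.I))
  have g3 := norm_sub_norm_le (Complex.exp (-w * Complex.I)) (Complex.exp (w * Complex.I))
  have g4 := norm_sub_norm_le (Complex.exp (w * Complex.I)) (Complex.exp (-w * Complex.I))
  have g5 := norm_sub_norm_le (Complex.exp (-w * Complex.I)) (-Complex.exp (w * Complex.I))
  have g6 := norm_sub_norm_le (Complex.exp (w * Complex.I)) (-Complex.exp (-w * Complex.I))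
  rw [norm_neg, sub_neg_eq_add] at g5 g6
  rw [add_comm (Complex.exp (-w * Complex.I))] at g5
  rw [norm_sub_rev (Complex.exp (w * Complex.I))] at g4
  rw [e1, e2] at g1 g2 g3 g4 g5 g6
  rw [hc, hs]
  rcases le_total 0 w.im with h | h
  · rw [abs_of_nonneg h]
    have h1 : Real.exp (-w.im) ≤ 1 := Real.exp_le_one_iff.2 (by linarith)
    refine ⟨?_, ?_, ?_, ?_⟩ <;> linarith
  · rw [abs_of_nonpos h]
    have h1 : Real.exp w.im ≤ 1 := Real.exp_le_one_iff.2 h
    refine ⟨?_, ?_, ?_, ?_⟩ <;> linarith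

theorem horiz_bound {a : ℝ} (ha : 100 ≤ a) {z : ℂ} (h1 : |z.re| ≤ a) (h2 : |z.im| = a) :
    a ≤ ‖f₀ z‖ := by
  have hpi := Real.pi_gt_three
  have hpi4 := Real.pi_le_four
  have hz : ‖z‖ ≤ 2 * a := by
    have := Complex.norm_le_abs_re_add_abs_im z
    linarith
  have him : |((Real.pi : ℂ) * z).im| = Real.pi * a := by
    rw [Complex.im_ofReal_mul, abs_mul, h2, abs_of_pos Real.pi_pos]
  obtain ⟨c1, c2, s1, s2⟩ := cos_bounds ((Real.pi : ℂ) * z)
  rw [him] at c1 c2 s1 s2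
  set E := Real.exp (Real.pi * a) with hE
  have hEa : 450 * a ≤ E := by
    have h3 : (Real.pi * a) ^ 2 / 2 ≤ E := by
      have := Real.quadratic_le_exp_of_nonneg (x := Real.pi * a) (by positivity)
      nlinarith [Real.pi_pos]
    have h4 : 3 * a ≤ Real.pi * a := by nlinarith
    nlinarith
  set c := ‖Complex.cos ((Real.pi : ℂ) * z)‖ with hc
  set s := ‖Complex.sin ((Real.pi : ℂ) * z)‖ with hs
  have t1 : ‖(1 / (Real.pi : ℂ)) * (Complex.cos (Real.pi * z) * Complex.sin (Real.pi * z))‖ ≤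
      ‖f₀ z‖ + ‖z / 2‖ + ‖(z + 1 / 2) * ((1 - Complex.cos (Real.pi * z)) / 2)‖ +
      ‖(1 / (Real.pi : ℂ)) * (1 / 2) * Complex.sin (Real.pi * z)‖ := by
    have e : (1 / (Real.pi : ℂ)) * (Complex.cos (Real.pi * z) * Complex.sin (Real.pi * z)) =
        -f₀ z + z / 2 + (z + 1 / 2) * ((1 - Complex.cos (Real.pi * z)) / 2) +
        (1 / (Real.pi : ℂ)) * (1 / 2) * Complex.sin (Real.pi * z) := by
      rw [f₀]; ring
    rw [e]
    calc _ ≤ ‖-f₀ z + z / 2 + (z + 1 / 2) * ((1 - Complex.cos (Real.pi * z)) / 2)‖ +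
        ‖(1 / (Real.pi : ℂ)) * (1 / 2) * Complex.sin (Real.pi * z)‖ := norm_add_le _ _
      _ ≤ ‖-f₀ z + z / 2‖ + ‖(z + 1 / 2) * ((1 - Complex.cos (Real.pi * z)) / 2)‖ +
        ‖(1 / (Real.pi : ℂ)) * (1 / 2) * Complex.sin (Real.pi * z)‖ := by
          gcongr; exact norm_add_le _ _
      _ ≤ ‖-f₀ z‖ + ‖z / 2‖ + ‖(z + 1 / 2) * ((1 - Complex.cos (Real.pi * z)) / 2)‖ +
        ‖(1 / (Real.pi : ℂ)) * (1 / 2) * Complex.sin (Real.pi * z)‖ := by
          gcongr; exact norm_add_le _ _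
      _ = _ := by rw [norm_neg]
  have hpn : ‖(1 / (Real.pi : ℂ))‖ = 1 / Real.pi := by
    rw [norm_div, norm_one, Complex.norm_real, Real.norm_of_nonneg Real.pi_pos.le]
  have t2 : ‖(1 / (Real.pi : ℂ)) * (Complex.cos (Real.pi * z) * Complex.sin (Real.pi * z))‖ =
      1 / Real.pi * (c * s) := by
    rw [norm_mul, norm_mul, hpn]
  have t3 : ‖z / 2‖ ≤ a := by
    rw [norm_div]
    norm_num
    linarith
  have t4 : ‖(z + 1 / 2) * ((1 - Complex.cos (Real.pi * z)) / 2)‖ ≤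
      (2 * a + 1 / 2) * ((1 + c) / 2) := by
    rw [norm_mul, norm_div]
    have i1 : ‖z + 1 / 2‖ ≤ 2 * a + 1 / 2 := by
      refine (norm_add_le _ _).trans ?_
      have : ‖(1 / 2 : ℂ)‖ = 1 / 2 := by norm_num
      rw [this]; linarith
    have i2 : ‖1 - Complex.cos (Real.pi * z)‖ ≤ 1 + c := by
      refine (norm_sub_le _ _).trans ?_
      rw [norm_one]
    have i3 : ‖(2 : ℂ)‖ = 2 := by norm_num
    rw [i3]
    gcongr
  have t5 : ‖(1 / (Real.pi : ℂ)) * (1 / 2) * Complex.sin (Real.pi * z)‖ ≤ s / 2 := by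
    rw [norm_mul, norm_mul, hpn]
    have i1 : ‖(1 / 2 : ℂ)‖ = 1 / 2 := by norm_num
    rw [i1]
    have i2 : 1 / Real.pi ≤ 1 := by
      rw [div_le_one Real.pi_pos]; linarith
    have i3 : 0 ≤ s := norm_nonneg _
    calc 1 / Real.pi * (1 / 2) * s ≤ 1 * (1 / 2) * s := by gcongr
      _ = s / 2 := by ring
  rw [t2] at t1
  have hpi' : 1 / 4 ≤ 1 / Real.pi := one_div_le_one_div_of_le Real.pi_pos hpi4
  have hc0 : 0 ≤ (E - 1) / 2 := by linarith
  have t6 : 1 / 4 * (((E - 1) / 2) * ((E - 1) / 2)) ≤ 1 / Real.pi * (c * s) := by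
    apply mul_le_mul hpi' _ (by positivity) (by positivity)
    exact mul_le_mul c1 s1 hc0 (by linarith)
  have t7 : (2 * a + 1 / 2) * ((1 + c) / 2) ≤ (3 * a) * ((E + 3) / 4) := by
    apply mul_le_mul <;> linarith
  have t8 : s / 2 ≤ (E + 1) / 4 := by linarith
  have t9 : (E - 1) * (E - 1) / 16 ≤ ‖f₀ z‖ + a + (3 * a) * ((E + 3) / 4) + (E + 1) / 4 := by
    linarith
  have t10 : 450 * a * E ≤ E * E := by nlinarith
  nlinarith

theorem loop : S_LOOP := by
  intro R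
  obtain ⟨N, hN⟩ := exists_nat_gt (10 * (|R| + 2))
  refine eventually_atTop.2 ⟨max N 50, ?_⟩
  intro m hm z hz
  have hm1 : (N : ℝ) ≤ m := by exact_mod_cast (le_max_left _ _).trans hm
  have hm2 : (50 : ℝ) ≤ m := by exact_mod_cast (le_max_right _ _).trans hm
  have hR := le_abs_self R
  have h0 := abs_nonneg R
  rcases max_choice |z.re| |z.im| with h | h
  · rw [h] at hz
    have hv := vert_bound m z.im
    have h00 : (0 : ℝ) ≤ 2 * m + 1 / 2 := by positivity
    rcases (abs_eq h00).1 hz with h1 | h1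
    · have e : z = ((2 * m + 1 / 2 : ℝ) : ℂ) + z.im * Complex.I := by
        rw [← h1]; exact (Complex.re_add_im z).symm
      have := hv.1
      rw [← e] at this
      linarith
    · have e : z = ((-(2 * m + 1 / 2) : ℝ) : ℂ) + z.im * Complex.I := by
        rw [← h1]; exact (Complex.re_add_im z).symm
      have := hv.2
      rw [← e] at this
      linarith
  · have h1 : |z.re| ≤ 2 * m + 1 / 2 := hz ▸ le_max_left _ _
    rw [h] at hz
    have := horiz_bound (a := 2 * m + 1 / 2) (by linarith) h1 hz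
    linarith

end Pool.Agent.Y804.WD
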